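import Pool.Agent.Lib.MP_c0fb52_nt.Quad

set_option autoImplicit false

/-!
# The quadruple-sum identity `F₃(1,5,1,12) = χ(Λ₅)` for the level-2 module of `A₁₃⁽²⁾`

All series live in `ℤ⟦X⟧` (the variable `q` is `X`) with the topology of coefficientwise
convergence, i.e. the product topology with `ℤ` discrete.
-/

namespace Pool.Agent.Results.MP_c0fb52_nt.LevelTwoA13

open PowerSeries PowerSeries.WithPiTopology

/-- The finite product `(x;p)_n = ∏_{0 ≤ m < n} (1 - x p^m)`. -/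
noncomputable def qPoch (x p : ℤ⟦X⟧) (n : ℕ) : ℤ⟦X⟧ := ∏ m ∈ Finset.range n, (1 - x * p ^ m)

/-- The infinite product `(x;p)_∞ = ∏_{m ≥ 0} (1 - x p^m)` (coefficientwise limit). -/
noncomputable def qPochInf (x p : ℤ⟦X⟧) : ℤ⟦X⟧ := ∏' m : ℕ, (1 - x * p ^ m)

/-- `[q^r;q^m]_∞ = (q^r;q^m)_∞ (q^(m-r);q^m)_∞`, used for `r ≤ m`. -/
noncomputable def bracket (r m : ℕ) : ℤ⟦X⟧ :=
  qPochInf (X ^ r) (X ^ m) * qPochInf (X ^ (m - r)) (X ^ m)

/-- The exponent `E(i,j,k,l)`. -/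
def E (i j k l : ℕ) : ℕ :=
  2 * i.choose 2 + 4 * j.choose 2 + 2 * k.choose 2 + 16 * l.choose 2 +
    2 * i * j + 2 * i * k + 4 * i * l + 4 * j * k + 8 * j * l + 4 * k * l

/-- The `(i,j,k,l)` term of `F₃(a,b,c,d)`. The denominator has constant coefficient `1`, hence is a
unit of `ℤ⟦X⟧`, and `Ring.inverse` is its inverse. -/
noncomputable def F3term (a b c d : ℕ) : ℕ × ℕ × ℕ × ℕ → ℤ⟦X⟧ := fun (i, j, k, l) =>
  (-1) ^ k * X ^ (E i j k l + a * i + b * j + c * k + d * l) *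
    Ring.inverse (qPoch X X i * qPoch (X ^ 2) (X ^ 2) j * qPoch (X ^ 2) (X ^ 2) k *
      qPoch (X ^ 4) (X ^ 4) l)

/-- `χ(Λ₅) = (q^16;q^16)_∞ [q^10;q^16]_∞ / ((q^2;q^2)_∞ [q^5;q^16]_∞)`. -/
noncomputable def chiLambda5 : ℤ⟦X⟧ :=
  qPochInf (X ^ 16) (X ^ 16) * bracket 10 16 *
    Ring.inverse (qPochInf (X ^ 2) (X ^ 2) * bracket 5 16)

open Pool.Agent.Lib.MP_c0fb52_nt

theorem X_dvd_X_pow {n : ℕ} (hn : n ≠ 0) : (X : ℤ⟦X⟧) ∣ X ^ n := dvd_pow_self X hn

/-- The infinite products converge. -/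
theorem hasProd_qPochInf (x : ℤ⟦X⟧) {n : ℕ} (hn : n ≠ 0) :
    HasProd (fun m : ℕ => 1 - x * (X ^ n) ^ m) (qPochInf x (X ^ n)) :=
  (multipliable_pinf x (X_dvd_X_pow hn)).hasProd

theorem qPochInf_eq (x p : ℤ⟦X⟧) : qPochInf x p = pinf x p := rfl

theorem qPoch_self (p : ℤ⟦X⟧) (n : ℕ) : qPoch p p n = fpoch p n := by
  unfold qPoch fpoch
  refine Finset.prod_congr rfl fun m _ => ?_
  ring

/-- The denominators of the terms are units. -/
theorem isUnit_term_denominator (i j k l : ℕ) :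
    IsUnit (qPoch X X i * qPoch (X ^ 2) (X ^ 2) j * qPoch (X ^ 2) (X ^ 2) k *
      qPoch (X ^ 4) (X ^ 4) l : ℤ⟦X⟧) := by
  simp only [qPoch_self]
  exact (((isUnit_fpoch X_dvd_X i).mul (isUnit_fpoch X_dvd_X_sq j)).mul
    (isUnit_fpoch X_dvd_X_sq k)).mul (isUnit_fpoch (X_dvd_X_pow (by norm_num)) l)

theorem isUnit_bracket {r m : ℕ} (hr : r ≠ 0) (hm : r < m) : IsUnit (bracket r m) :=
  (isUnit_pinf (X_dvd_X_pow (by omega)) (X_dvd_X_pow hr)).mul
    (isUnit_pinf (X_dvd_X_pow (by omega)) (X_dvd_X_pow (by omega)))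

/-- The denominator of `χ(Λ₅)` is a unit. -/
theorem isUnit_chi_denominator : IsUnit (qPochInf (X ^ 2) (X ^ 2) * bracket 5 16) :=
  (isUnit_pinf X_dvd_X_sq X_dvd_X_sq).mul (isUnit_bracket (by norm_num) (by norm_num))

theorem term_eq : F3term 1 5 1 12 = gg ∘ iota := by
  funext ⟨i, j, k, l⟩
  have e4 : ((X : ℤ⟦X⟧) ^ 2) ^ 2 = X ^ 4 := by ring
  simp only [Function.comp_apply, gg_iota, F3term, ip_natCast, E, qPoch_self, e4]
  rw [Ring.mul_inverse_rev, Ring.mul_inverse_rev, Ring.mul_inverse_rev]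
  ring

theorem chi_eq : ∑' N, fN N = chiLambda5 := by
  have h1 := sum_fN
  have h2 := quintuple
  rw [← h1] at h2
  have hu := isUnit_chi_denominator
  unfold chiLambda5
  rw [Ring.eq_mul_inverse_iff_mul_eq _ _ _ hu]
  simp only [bracket, qPochInf_eq]
  norm_num
  linear_combination h2

/-- `F₃(1,5,1,12) = χ(Λ₅)` as formal power series with integer coefficients: the quadruple series
converges coefficientwise and its sum is the product. -/
theorem result : HasSum (F3term 1 5 1 12) chiLambda5 := by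
  rw [term_eq, ← chi_eq]
  exact hasSum_gg_iota

end Pool.Agent.Results.MP_c0fb52_nt.LevelTwoA13
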